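import Pool.Agent.Lib.MP_55191a_nt.Fin

/-!
# MP_55191a_nt: bounded triples of consecutive `k`-th power residues, the pretentious case

For odd `k`, the question asks for a bound `Λ(k,3)` such that every large prime `p`, `k ∣ p - 1`, has
three consecutive `k`-th power residues below `Λ(k,3)`. The `k`-th power residues are the kernel of
any character `χ` modulo `p` of order `k`. We prove the existence of such a bound for all primes `p`
whose character `χ` agrees with a character `ψ` of bounded modulus, `ψ ^ k = 1`, outside a set of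
primes `q ≤ L` with `∑ 1/q ≤ δ log log L + C`, where `δ > 0` is an absolute constant: there are three
consecutive `k`-th power residues below `L` as soon as `L ≥ L₀(k, m, C)`.
-/

set_option autoImplicit false

namespace Pool.Agent.Results.MP_55191a_nt.PretentiousTriples

open scoped Classical

/-- `∑ 1/q` over the primes `q ≤ L` which do not divide `m` and satisfy `χ q ≠ ψ q` -/
noncomputable def disagree {p m : ℕ} (χ : DirichletCharacter ℂ p) (ψ : DirichletCharacter ℂ m)
    (L : ℕ) : ℝ :=
  ∑ q ∈ (Finset.range (L + 1)).filter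
    (fun q => q.Prime ∧ ¬ q ∣ m ∧ χ (q : ZMod p) ≠ ψ (q : ZMod m)), 1 / (q : ℝ)

theorem result : ∃ δ : ℝ, 0 < δ ∧ ∀ k : ℕ, Odd k → ∀ m : ℕ, 0 < m → ∀ C : ℝ, ∃ L₀ : ℕ,
    ∀ L : ℕ, L₀ ≤ L → ∀ p : ℕ, p.Prime →
      ∀ χ : DirichletCharacter ℂ p, orderOf χ = k →
      ∀ ψ : DirichletCharacter ℂ m, ψ ^ k = 1 →
      disagree χ ψ L ≤ δ * Real.log (Real.log L) + C →
      ∃ r : ℕ, 0 < r ∧ r + 2 ≤ L ∧ ∀ j ≤ 2, ∃ x : ℕ, x ^ k ≡ r + j [MOD p] :=
  Pool.Agent.Lib.MP55191a.main

end Pool.Agent.Results.MP_55191a_nt.PretentiousTriples
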